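import Pool.Agent.SGD.Stmts

/-!
# SGD, row NX2: the edges of the second graph do not cross
-/

noncomputable section

namespace Pool.Agent.SGD.H3

open Pool.Agent.SGE Pool.Agent.SGP Pool.Agent.SGY Pool.Agent.SGD

theorem xs_swap {p q r s : ℝ × ℝ} (h : Xs p q r s) : Xs r s p q := ⟨h.2, h.1⟩

theorem xs_pos {p q r s : ℝ × ℝ} (h1 : 0 < o p q r) (h2 : 0 < o p q s) : ¬ Xs p q r s := by
  rintro ⟨x1, _⟩
  exact absurd x1 (not_lt.mpr (mul_pos h1 h2).le)

theorem xs_neg {p q r s : ℝ × ℝ} (h1 : o p q r < 0) (h2 : o p q s < 0) : ¬ Xs p q r s := by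
  rintro ⟨x1, _⟩
  exact absurd x1 (not_lt.mpr (mul_pos_of_neg_of_neg h1 h2).le)

theorem xs_com {p q r s : ℝ × ℝ} (h : p = r ∨ p = s ∨ q = r ∨ q = s) : ¬ Xs p q r s := by
  rintro ⟨x1, _⟩
  have h0 : o p q r * o p q s = 0 := by
    rcases h with rfl | rfl | rfl | rfl
    · have e : o p q p = 0 := by unfold o; ring
      rw [e, zero_mul]
    · have e : o p q p = 0 := by unfold o; ring
      rw [e, mul_zero]
    · have e : o p q q = 0 := by unfold o; ring
      rw [e, zero_mul]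
    · have e : o p q q = 0 := by unfold o; ring
      rw [e, mul_zero]
  rw [h0] at x1
  exact absurd x1 (lt_irrefl _)

theorem o_rot (p q r : ℝ × ℝ) : o p q r = o q r p := by unfold o; ring

theorem o_neg (p q r : ℝ × ℝ) : o p q r = - o q p r := by unfold o; ring

/-- segments in different angular sectors do not cross -/
theorem sector {A P Q R S : ℝ × ℝ} (h1 : 0 < o A Q P) (h2 : 0 < o A R Q) (h3 : 0 < o A S Q) :
    ¬ Xs P Q R S := by
  rintro ⟨x1, x2⟩
  have e1 : o P Q S - o P Q R = o R S P - o R S Q := by unfold o; ring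
  have e2 : - o P Q S * o A R Q + o P Q R * o A S Q + o R S Q * o A Q P = 0 := by
    unfold o; ring
  rcases lt_trichotomy (o P Q R) 0 with h | h | h
  · have h4 : 0 < o P Q S := by
      by_contra hc
      have := mul_nonneg_of_nonpos_of_nonpos h.le (not_lt.mp hc)
      linarith
    have h5 : o R S Q < 0 := by
      by_contra hc
      have h6 : 0 ≤ o R S Q := not_lt.mp hc
      have h7 : 0 ≤ o R S P := by linarith
      have := mul_nonneg h7 h6
      linarith
    have a1 := mul_pos h4 h2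
    have a2 := mul_neg_of_neg_of_pos h h3
    have a3 := mul_neg_of_neg_of_pos h5 h1
    linarith
  · rw [h, zero_mul] at x1
    exact absurd x1 (lt_irrefl _)
  · have h4 : o P Q S < 0 := by
      by_contra hc
      have := mul_nonneg h.le (not_lt.mp hc)
      linarith
    have h5 : 0 < o R S Q := by
      by_contra hc
      have h6 : o R S Q ≤ 0 := not_lt.mp hc
      have h7 : o R S P ≤ 0 := by linarith
      have := mul_nonneg_of_nonpos_of_nonpos h7 h6
      linarith
    have a1 := mul_neg_of_neg_of_pos h4 h2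
    have a2 := mul_pos h h3
    have a3 := mul_pos h5 h1
    linarith

/-- one chain: the edges of one chain do not cross -/
theorem chain1 {k : ℕ} {D : ℕ → ℕ} {A : ℝ × ℝ} {p : ℕ → ℝ × ℝ}
    (rad : ∀ i j, i < j → j ≤ k + 1 → 0 < o A (p j) (p i))
    (low : ∀ i l j, i < l → l < j → j ≤ k + 1 → Ed k D i j → 0 < o (p j) (p i) (p l))
    {i j i' j' : ℕ} (hij : i < j) (hj : j ≤ k + 1) (he : Ed k D i j)
    (hij' : i' < j') (hj' : j' ≤ k + 1) (he' : Ed k D i' j') (hlt : i < i') :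
    ¬ Xs (p i) (p j) (p i') (p j') := by
  rcases lt_trichotomy j i' with h1 | h1 | h1
  · exact sector (A := A) (rad i j hij hj) (rad j i' h1 (by omega)) (rad j j' (by omega) hj')
  · subst h1
    exact xs_com (Or.inr (Or.inr (Or.inl rfl)))
  · rcases lt_trichotomy j' j with h2 | h2 | h2
    · have a1 := low i i' j hlt h1 hj he
      have a2 := low i j' j (by omega) h2 hj he
      rw [o_neg] at a1 a2
      exact xs_neg (by linarith) (by linarith)
    · subst h2
      exact xs_com (Or.inr (Or.inr (Or.inr rfl)))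
    · exfalso
      have a1 := (he i' hlt h1).2 (by omega)
      have a2 := (he' j h1 h2).1 (by omega)
      omega

theorem chain {k : ℕ} {D : ℕ → ℕ} {A : ℝ × ℝ} {p : ℕ → ℝ × ℝ}
    (rad : ∀ i j, i < j → j ≤ k + 1 → 0 < o A (p j) (p i))
    (low : ∀ i l j, i < l → l < j → j ≤ k + 1 → Ed k D i j → 0 < o (p j) (p i) (p l))
    {i j i' j' : ℕ} (hij : i < j) (hj : j ≤ k + 1) (he : Ed k D i j)
    (hij' : i' < j') (hj' : j' ≤ k + 1) (he' : Ed k D i' j') :
    ¬ Xs (p i) (p j) (p i') (p j') := by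
  rcases lt_trichotomy i i' with h1 | h1 | h1
  · exact chain1 rad low hij hj he hij' hj' he' h1
  · subst h1
    exact xs_com (Or.inl rfl)
  · intro hx
    exact chain1 rad low hij' hj' he' hij hj he h1 (xs_swap hx)

section

variable {k₁ k₂ : ℕ} {D₁ D₂ : ℕ → ℕ} {X Y : ℕ → ℝ × ℝ}

theorem xx_yy (h : GdX k₁ k₂ D₁ D₂ X Y) {i j i' j' : ℕ} (hij : i < j) (hj : j ≤ k₁ + 1)
    (hij' : i' < j') (hj' : j' ≤ k₂ + 1) : ¬ Xs (X i) (X j) (Y i') (Y j') := by
  by_cases h0 : i' = 0
  · subst h0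
    by_cases h1 : j = k₁ + 1
    · subst h1
      exact xs_com (Or.inr (Or.inr (Or.inl h.top)))
    · have a1 := h.g2 0 j' i hij' hj' (by omega)
      have a2 := h.g2 0 j' j hij' hj' (by omega)
      rw [o_rot, o_neg] at a1 a2
      intro hx
      exact xs_neg (by linarith) (by linarith) (xs_swap hx)
  · have a1 := h.g1 i j i' hij hj (by omega) (by omega)
    have a2 := h.g1 i j j' hij hj (by omega) (by omega)
    rw [o_rot, o_neg] at a1 a2
    exact xs_neg (by linarith) (by linarith)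

theorem xx_xy (h : GdX k₁ k₂ D₁ D₂ X Y) {i j l m : ℕ} (hij : i < j) (hj : j ≤ k₁ + 1)
    (he : Ed k₁ D₁ i j) (hl : l ≤ k₁) (hm : 1 ≤ m) (hm' : m ≤ k₂ + 1) :
    ¬ Xs (X i) (X j) (X l) (Y m) := by
  rcases lt_trichotomy l i with h1 | h1 | h1
  · have a1 := h.g1 l i m h1 (by omega) hm hm'
    have a2 := h.g1 l j m (by omega) (by omega) hm hm'
    rw [← o_rot] at a1 a2
    intro hx
    exact xs_pos a1 a2 (xs_swap hx)
  · subst h1
    exact xs_com (Or.inl rfl)
  · rcases lt_trichotomy l j with h2 | h2 | h2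
    · have a1 := h.g3 i l j h1 h2 hj he
      have a2 := h.g1 i j m hij hj hm hm'
      rw [o_neg] at a1
      rw [o_rot, o_neg] at a2
      exact xs_neg (by linarith) (by linarith)
    · subst h2
      exact xs_com (Or.inr (Or.inr (Or.inl rfl)))
    · have a1 := h.g1 i l m h1 (by omega) hm hm'
      have a2 := h.g1 j l m h2 (by omega) hm hm'
      rw [o_neg] at a1 a2
      intro hx
      exact xs_neg (by linarith) (by linarith) (xs_swap hx)

theorem yy_xy (h : GdX k₁ k₂ D₁ D₂ X Y) {i j l m : ℕ} (hij : i < j) (hj : j ≤ k₂ + 1)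
    (he : Ed k₂ D₂ i j) (hl : l ≤ k₁) (hm' : m ≤ k₂ + 1) :
    ¬ Xs (Y i) (Y j) (X l) (Y m) := by
  rcases lt_trichotomy m i with h1 | h1 | h1
  · have a1 := h.g2 m i l h1 (by omega) hl
    have a2 := h.g2 m j l (by omega) (by omega) hl
    have e1 : o (X l) (Y m) (Y i) = - o (X l) (Y i) (Y m) := by unfold o; ring
    have e2 : o (X l) (Y m) (Y j) = - o (X l) (Y j) (Y m) := by unfold o; ring
    intro hx
    exact xs_neg (by linarith) (by linarith) (xs_swap hx)
  · subst h1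
    exact xs_com (Or.inr (Or.inl rfl))
  · rcases lt_trichotomy m j with h2 | h2 | h2
    · have a1 := h.g4 i m j h1 h2 hj he
      have a2 := h.g2 i j l hij hj hl
      rw [o_neg] at a1
      rw [o_rot, o_neg] at a2
      exact xs_neg (by linarith) (by linarith)
    · subst h2
      exact xs_com (Or.inr (Or.inr (Or.inr rfl)))
    · have a1 := h.g2 i m l h1 hm' hl
      have a2 := h.g2 j m l h2 hm' hl
      intro hx
      exact xs_pos a1 a2 (xs_swap hx)

theorem xy_xy1 (h : GdX k₁ k₂ D₁ D₂ X Y) {i j i' j' : ℕ} (hi' : i' ≤ k₁)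
    (hj : 1 ≤ j) (hj2 : j ≤ k₂ + 1) (hlt : i < i') (hle : j' ≤ j) :
    ¬ Xs (X i) (Y j) (X i') (Y j') := by
  by_cases h1 : j' = j
  · subst h1
    exact xs_com (Or.inr (Or.inr (Or.inr rfl)))
  · have a1 := h.g1 i i' j hlt (by omega) hj hj2
    have a2 := h.g2 j' j i (by omega) hj2 (by omega)
    rw [← o_rot] at a1
    exact xs_pos a1 a2

end

theorem nx2 : Nx2Stmt := by
  intro k₁ k₂ D₁ D₂ S X Y h hS p q r s h1 h2
  cases h1 with
  | xx a1 a2 a3 =>
    cases h2 with
    | xx b1 b2 b3 =>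
      exact chain (A := Y (k₂ + 1)) (fun i j hij hj => h.g1 i j (k₂ + 1) hij hj (by omega) le_rfl)
        h.g3 a1 a2 a3 b1 b2 b3
    | yy b1 b2 b3 => exact xx_yy h a1 a2 b1 b2
    | xy b1 b2 b3 b4 => exact xx_xy h a1 a2 a3 b1 b2 b3
  | yy a1 a2 a3 =>
    cases h2 with
    | xx b1 b2 b3 => exact fun hx => xx_yy h b1 b2 a1 a2 (xs_swap hx)
    | yy b1 b2 b3 =>
      exact chain (A := X 0) (fun i j hij hj => h.g2 i j 0 hij hj (Nat.zero_le _))
        h.g4 a1 a2 a3 b1 b2 b3
    | xy b1 b2 b3 b4 => exact yy_xy h a1 a2 a3 b1 b3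
  | xy a1 a2 a3 a4 =>
    cases h2 with
    | xx b1 b2 b3 => exact fun hx => xx_xy h b1 b2 b3 a1 a2 a3 (xs_swap hx)
    | yy b1 b2 b3 => exact fun hx => yy_xy h b1 b2 b3 a1 a3 (xs_swap hx)
    | @xy i' j' b1 b2 b3 b4 =>
      rename_i i j
      rcases lt_trichotomy i i' with h3 | h3 | h3
      · exact xy_xy1 h b1 a2 a3 h3 (hS _ _ _ _ a4 b4 h3)
      · subst h3
        exact xs_com (Or.inl rfl)
      · exact fun hx => xy_xy1 h a1 b2 b3 h3 (hS _ _ _ _ b4 a4 h3) (xs_swap hx)

end Pool.Agent.SGD.H3
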